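import Mathlib
import Pool.Agent.Helper831.Quot2

set_option maxSynthPendingDepth 3
set_option linter.unusedSectionVars false

open scoped Manifold ContDiff Topology
open Set Filter
open Pool.Agent.Helper831

namespace Pool.Agent.N525.Sol

/-- The golden ratio. -/
noncomputable abbrev phi : ℝ := Real.goldenRatio
/-- The conjugate of the golden ratio. -/
noncomputable abbrev psi : ℝ := Real.goldenConj

/-- `c = 2 log φ`, so that `exp c = φ²`. -/
noncomputable def cc : ℝ := 2 * Real.log phi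

theorem cc_pos : 0 < cc := by
  unfold cc
  have := Real.log_pos Real.one_lt_goldenRatio
  positivity

/-- The group `Sol`, with multiplication
`(p, q, z) (p', q', z') = (p + e^{c z} p', q + e^{-c z} q', z + z')`. -/
@[ext] structure SolG where
  p : ℝ
  q : ℝ
  z : ℝ

namespace SolG

noncomputable instance : Mul SolG :=
  ⟨fun g h => ⟨g.p + Real.exp (cc * g.z) * h.p, g.q + Real.exp (-(cc * g.z)) * h.q, g.z + h.z⟩⟩
noncomputable instance : One SolG := ⟨⟨0, 0, 0⟩⟩
noncomputable instance : Inv SolG :=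
  ⟨fun g => ⟨-(Real.exp (-(cc * g.z)) * g.p), -(Real.exp (cc * g.z) * g.q), -g.z⟩⟩

@[simp] theorem mul_p (g h : SolG) : (g * h).p = g.p + Real.exp (cc * g.z) * h.p := rfl
@[simp] theorem mul_q (g h : SolG) : (g * h).q = g.q + Real.exp (-(cc * g.z)) * h.q := rfl
@[simp] theorem mul_z (g h : SolG) : (g * h).z = g.z + h.z := rfl
@[simp] theorem one_p : (1 : SolG).p = 0 := rfl
@[simp] theorem one_q : (1 : SolG).q = 0 := rfl
@[simp] theorem one_z : (1 : SolG).z = 0 := rfl
@[simp] theorem inv_p (g : SolG) : (g⁻¹).p = -(Real.exp (-(cc * g.z)) * g.p) := rfl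
@[simp] theorem inv_q (g : SolG) : (g⁻¹).q = -(Real.exp (cc * g.z) * g.q) := rfl
@[simp] theorem inv_z (g : SolG) : (g⁻¹).z = -g.z := rfl

noncomputable instance : Group SolG :=
  Group.ofLeftAxioms
    (by
      intro g h l
      ext
      · simp only [mul_p, mul_z]
        rw [mul_add cc, Real.exp_add]; ring
      · simp only [mul_q, mul_z]
        rw [mul_add cc, neg_add, Real.exp_add]; ring
      · simp only [mul_z]; ring)
    (by intro g; ext <;> simp)
    (by
      intro g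
      ext
      · simp
      · simp
      · simp)

/-- The action of `Sol` on `ℝ³` by left translations. -/
noncomputable instance : MulAction SolG (ℝ × ℝ × ℝ) where
  smul g x := (g.p + Real.exp (cc * g.z) * x.1, g.q + Real.exp (-(cc * g.z)) * x.2.1, g.z + x.2.2)
  one_smul x := by
    show ((1 : SolG).p + Real.exp (cc * (1 : SolG).z) * x.1,
      (1 : SolG).q + Real.exp (-(cc * (1 : SolG).z)) * x.2.1, (1 : SolG).z + x.2.2) = x
    simp
  mul_smul g h x := by
    refine Prod.ext ?_ (Prod.ext ?_ ?_)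
    · show (g * h).p + Real.exp (cc * (g * h).z) * x.1 =
        g.p + Real.exp (cc * g.z) * (h.p + Real.exp (cc * h.z) * x.1)
      simp only [mul_p, mul_z]
      rw [mul_add cc, Real.exp_add]; ring
    · show (g * h).q + Real.exp (-(cc * (g * h).z)) * x.2.1 =
        g.q + Real.exp (-(cc * g.z)) * (h.q + Real.exp (-(cc * h.z)) * x.2.1)
      simp only [mul_q, mul_z]
      rw [mul_add cc, neg_add, Real.exp_add]; ring
    · show (g * h).z + x.2.2 = g.z + (h.z + x.2.2)
      simp only [mul_z]; ring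

theorem smul_def (g : SolG) (x : ℝ × ℝ × ℝ) : g • x =
    (g.p + Real.exp (cc * g.z) * x.1, g.q + Real.exp (-(cc * g.z)) * x.2.1, g.z + x.2.2) := rfl

end SolG

theorem exp_cc_int (k : ℤ) : Real.exp (cc * k) = phi ^ (2 * k) := by
  have h := Real.rpow_def_of_pos Real.goldenRatio_pos ((2 * k : ℤ) : ℝ)
  rw [Real.rpow_intCast] at h
  rw [h]
  congr 1
  unfold cc
  push_cast
  ring

theorem exp_neg_cc_int (k : ℤ) : Real.exp (-(cc * k)) = psi ^ (2 * k) := by
  rw [Real.exp_neg, exp_cc_int]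
  have h1 : psi = -phi⁻¹ := by rw [Real.inv_goldenRatio]; ring
  rw [h1, zpow_mul, zpow_mul]
  have h2 : (-phi⁻¹) ^ (2 : ℤ) = (phi ^ (2 : ℤ))⁻¹ := by
    rw [show (2 : ℤ) = ((2 : ℕ) : ℤ) from rfl, zpow_natCast, zpow_natCast, neg_sq, inv_pow]
  rw [h2, inv_zpow]

theorem unit_mul (n : ℤ) : ∀ a b : ℤ, ∃ a' b' : ℤ,
    phi ^ n * (a + b * phi) = a' + b' * phi ∧ psi ^ n * (a + b * psi) = a' + b' * psi := by
  have hphi : phi ^ 2 = phi + 1 := Real.goldenRatio_sq
  have hpsi : psi ^ 2 = psi + 1 := Real.goldenConj_sq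
  have hphi0 : phi ≠ 0 := Real.goldenRatio_ne_zero
  have hpsi0 : psi ≠ 0 := Real.goldenConj_ne_zero
  induction n using Int.induction_on with
  | zero => intro a b; exact ⟨a, b, by simp, by simp⟩
  | succ n ih =>
    intro a b
    obtain ⟨a', b', h1, h2⟩ := ih b (a + b)
    refine ⟨a', b', ?_, ?_⟩
    · rw [zpow_add_one₀ hphi0, ← h1]
      push_cast
      linear_combination (phi ^ (n : ℤ) * b) * hphi
    · rw [zpow_add_one₀ hpsi0, ← h2]
      push_cast
      linear_combination (psi ^ (n : ℤ) * b) * hpsi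
  | pred n ih =>
    intro a b
    obtain ⟨a', b', h1, h2⟩ := ih (b - a) a
    refine ⟨a', b', ?_, ?_⟩
    · rw [zpow_sub_one₀ hphi0, ← h1]
      have : phi⁻¹ = phi - 1 := by
        rw [inv_eq_iff_eq_inv, eq_comm, inv_eq_of_mul_eq_one_left]
        linear_combination hphi
      rw [this]
      push_cast
      linear_combination (phi ^ (-(n : ℤ)) * b) * hphi
    · rw [zpow_sub_one₀ hpsi0, ← h2]
      have : psi⁻¹ = psi - 1 := by
        rw [inv_eq_iff_eq_inv, eq_comm, inv_eq_of_mul_eq_one_left]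
        linear_combination hpsi
      rw [this]
      push_cast
      linear_combination (psi ^ (-(n : ℤ)) * b) * hpsi

/-- The lattice of `Sol` consisting of the elements `(a + b φ, a + b ψ, k)` with integers
`a`, `b`, `k`. -/
def Lat : Subgroup SolG where
  carrier := {g | ∃ a b k : ℤ, g = ⟨a + b * phi, a + b * psi, k⟩}
  mul_mem' := by
    rintro _ _ ⟨a, b, k, rfl⟩ ⟨a', b', k', rfl⟩
    obtain ⟨a'', b'', h1, h2⟩ := unit_mul (2 * k) a' b'
    refine ⟨a + a'', b + b'', k + k', ?_⟩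
    ext
    · simp only [SolG.mul_p]
      rw [exp_cc_int, h1]; push_cast; ring
    · simp only [SolG.mul_q]
      rw [exp_neg_cc_int, h2]; push_cast; ring
    · simp only [SolG.mul_z]; push_cast; ring
  one_mem' := ⟨0, 0, 0, by ext <;> simp⟩
  inv_mem' := by
    rintro _ ⟨a, b, k, rfl⟩
    obtain ⟨a'', b'', h1, h2⟩ := unit_mul (2 * (-k)) a b
    refine ⟨-a'', -b'', -k, ?_⟩
    ext
    · simp only [SolG.inv_p]
      rw [show -(cc * (k : ℝ)) = cc * ((-k : ℤ) : ℝ) by push_cast; ring, exp_cc_int, h1]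
      push_cast; ring
    · simp only [SolG.inv_q]
      rw [show cc * (k : ℝ) = -(cc * ((-k : ℤ) : ℝ)) by push_cast; ring, exp_neg_cc_int, h2]
      push_cast; ring
    · simp only [SolG.inv_z]; push_cast; ring

theorem Lat.smul_def (g : Lat) (x : ℝ × ℝ × ℝ) : g • x =
    ((g : SolG).p + Real.exp (cc * (g : SolG).z) * x.1,
      (g : SolG).q + Real.exp (-(cc * (g : SolG).z)) * x.2.1, (g : SolG).z + x.2.2) := rfl

instance : SmoothConst Lat (ℝ × ℝ × ℝ) where
  smooth g := by
    simp only [Lat.smul_def]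
    fun_prop

instance : ContinuousConstSMul Lat (ℝ × ℝ × ℝ) where
  continuous_const_smul g := (SmoothConst.smooth (E := ℝ × ℝ × ℝ) g).continuous

instance : IsCancelSMul Lat (ℝ × ℝ × ℝ) where
  right_cancel' g h x hx := by
    rw [Lat.smul_def, Lat.smul_def, Prod.mk.injEq, Prod.mk.injEq] at hx
    obtain ⟨h1, h2, h3⟩ := hx
    have hz : (g : SolG).z = (h : SolG).z := by linarith
    rw [hz] at h1 h2
    exact Subtype.ext (SolG.ext (by linarith) (by linarith) hz)

/-- the element of the lattice with given integers -/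
noncomputable def mkLat (a b k : ℤ) : Lat := ⟨⟨a + b * phi, a + b * psi, k⟩, a, b, k, rfl⟩

theorem finite_of_bdd {s : Set Lat} (R : ℝ) (h : ∀ a b k : ℤ, mkLat a b k ∈ s →
    |(a : ℝ)| ≤ R ∧ |(b : ℝ)| ≤ R ∧ |(k : ℝ)| ≤ R) : s.Finite := by
  have hfin : ((Set.Icc (-⌈R⌉) ⌈R⌉ ×ˢ (Set.Icc (-⌈R⌉) ⌈R⌉ ×ˢ Set.Icc (-⌈R⌉) ⌈R⌉)) :
      Set (ℤ × ℤ × ℤ)).Finite :=
    (Set.finite_Icc _ _).prod ((Set.finite_Icc _ _).prod (Set.finite_Icc _ _))
  refine (hfin.image (fun q => mkLat q.1 q.2.1 q.2.2)).subset ?_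
  rintro ⟨g, a, b, k, rfl⟩ hg
  obtain ⟨h1, h2, h3⟩ := h a b k hg
  have hR := Int.le_ceil R
  have key : ∀ m : ℤ, |(m : ℝ)| ≤ R → m ∈ Set.Icc (-⌈R⌉) ⌈R⌉ := by
    intro m hm
    have : ((|m| : ℤ) : ℝ) ≤ ⌈R⌉ := by rw [Int.cast_abs]; exact hm.trans hR
    have : |m| ≤ ⌈R⌉ := by exact_mod_cast this
    exact abs_le.1 this
  exact ⟨(a, b, k), ⟨key a h1, key b h2, key k h3⟩, rfl⟩

theorem sub_conj : phi - psi = Real.sqrt 5 := Real.goldenRatio_sub_goldenConj

theorem sqrt5_ge : 2 ≤ Real.sqrt 5 := by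
  rw [Real.le_sqrt (by norm_num) (by norm_num)]; norm_num

theorem phi_le : phi ≤ 2 := Real.goldenRatio_lt_two.le

instance : ProperlyDiscontinuousSMul Lat (ℝ × ℝ × ℝ) where
  finite_disjoint_inter_image := by
    intro K L hK hL
    obtain ⟨R, hR⟩ := hK.isBounded.exists_norm_le
    obtain ⟨S, hS⟩ := hL.isBounded.exists_norm_le
    set T : ℝ := max (max R S) 1 with hT
    have hT1 : 1 ≤ T := le_max_right _ _
    have hRT : R ≤ T := (le_max_left _ _).trans (le_max_left _ _)
    have hST : S ≤ T := (le_max_right _ _).trans (le_max_left _ _)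
    set W : ℝ := Real.exp (cc * (2 * T)) with hW
    have hW1 : 1 ≤ W := Real.one_le_exp (mul_nonneg cc_pos.le (by linarith))
    set B : ℝ := T + W * T with hB
    have hB0 : 0 ≤ B := by positivity
    have hTB : 2 * T ≤ B := by nlinarith
    apply finite_of_bdd (3 * B)
    rintro a b k ⟨q, ⟨x, hx, rfl⟩, hq⟩
    have h1 := (hR x hx).trans hRT
    have h2 := (hS _ hq).trans hST
    simp only [Lat.smul_def, mkLat, Prod.norm_def, Real.norm_eq_abs] at h1 h2
    rw [max_le_iff, max_le_iff] at h1 h2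
    obtain ⟨h11, h12, h13⟩ := h1
    obtain ⟨h21, h22, h23⟩ := h2
    have hk : |(k : ℝ)| ≤ 2 * T := by
      have := abs_sub (↑k + x.2.2) x.2.2
      rw [add_sub_cancel_right] at this
      linarith
    have hkk := abs_le.1 hk
    have hc := cc_pos
    have he1 : Real.exp (cc * k) ≤ W := Real.exp_le_exp.2 (by nlinarith)
    have he2 : Real.exp (-(cc * k)) ≤ W := Real.exp_le_exp.2 (by nlinarith)
    have hp : |(a : ℝ) + b * phi| ≤ B := by
      have h3 := abs_sub ((a : ℝ) + b * phi + Real.exp (cc * k) * x.1) (Real.exp (cc * k) * x.1)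
      rw [add_sub_cancel_right, abs_mul (Real.exp _), Real.abs_exp] at h3
      have h4 : Real.exp (cc * k) * |x.1| ≤ W * T :=
        mul_le_mul he1 h11 (abs_nonneg _) (by linarith)
      linarith
    have hq : |(a : ℝ) + b * psi| ≤ B := by
      have h3 := abs_sub ((a : ℝ) + b * psi + Real.exp (-(cc * k)) * x.2.1)
        (Real.exp (-(cc * k)) * x.2.1)
      rw [add_sub_cancel_right, abs_mul (Real.exp _), Real.abs_exp] at h3
      have h4 : Real.exp (-(cc * k)) * |x.2.1| ≤ W * T :=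
        mul_le_mul he2 h12 (abs_nonneg _) (by linarith)
      linarith
    have hb : |(b : ℝ)| ≤ B := by
      have h3 : (b : ℝ) * Real.sqrt 5 = ((a : ℝ) + b * phi) - ((a : ℝ) + b * psi) := by
        rw [← sub_conj]; ring
      have h4 : |(b : ℝ)| * Real.sqrt 5 ≤ 2 * B := by
        have := abs_sub ((a : ℝ) + b * phi) ((a : ℝ) + b * psi)
        rw [← h3, abs_mul, abs_of_nonneg (Real.sqrt_nonneg 5)] at this
        linarith
      nlinarith [sqrt5_ge, abs_nonneg (b : ℝ)]
    have ha : |(a : ℝ)| ≤ 3 * B := by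
      have h3 := abs_sub ((a : ℝ) + b * phi) (b * phi)
      rw [add_sub_cancel_right, abs_mul] at h3
      have h5 : |phi| ≤ 2 := by rw [abs_of_pos Real.goldenRatio_pos]; exact phi_le
      have h6 : |(b : ℝ)| * |phi| ≤ B * 2 := mul_le_mul hb h5 (abs_nonneg _) hB0
      linarith
    exact ⟨ha, by linarith, by linarith⟩

/-- every point is equivalent to a point of a fixed box -/
theorem exists_box (x : ℝ × ℝ × ℝ) : ∃ g : Lat, g • x ∈
    (Set.Icc (-3 : ℝ) 3 ×ˢ (Set.Icc (-3 : ℝ) 3 ×ˢ Set.Icc (0 : ℝ) 1)) := by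
  set k : ℤ := -⌊x.2.2⌋ with hk
  set P : ℝ := Real.exp (cc * k) * x.1 with hP
  set Q : ℝ := Real.exp (-(cc * k)) * x.2.1 with hQ
  set t : ℝ := (P - Q) / Real.sqrt 5 with ht
  set s : ℝ := P - t * phi with hs
  have h5 : Real.sqrt 5 ≠ 0 := by positivity
  have hPe : P = s + t * phi := by rw [hs]; ring
  have hQe : Q = s + t * psi := by
    have : t * Real.sqrt 5 = P - Q := by rw [ht]; field_simp
    rw [← sub_conj] at this
    linear_combination hPe + this
  refine ⟨mkLat (-⌊s⌋) (-⌊t⌋) k, ?_⟩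
  rw [Lat.smul_def]
  simp only [Set.mem_prod, Set.mem_Icc, mkLat]
  rw [← hP, ← hQ, hPe, hQe]
  have h1 := Int.floor_le s
  have h2 := Int.lt_floor_add_one s
  have h3 := Int.floor_le t
  have h4 := Int.lt_floor_add_one t
  have h6 := phi_le
  have h7 := Real.goldenRatio_pos
  have h8 := Real.goldenConj_neg
  have h9 := Real.neg_one_lt_goldenConj
  have h10 := Int.floor_le x.2.2
  have h11 := Int.lt_floor_add_one x.2.2
  push_cast
  refine ⟨⟨?_, ?_⟩, ⟨?_, ?_⟩, ⟨?_, ?_⟩⟩
  · nlinarith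
  · nlinarith
  · nlinarith
  · nlinarith
  · rw [hk]; push_cast; linarith
  · rw [hk]; push_cast; linarith

/-- The closed `3`-manifold `Lat \ Sol`. -/
abbrev SolMfd : Type := MulAction.orbitRel.Quotient Lat (ℝ × ℝ × ℝ)

theorem continuous_proj {E : Type*} [TopologicalSpace E] {Γ : Type*} [Group Γ] [MulAction Γ E] :
    Continuous (proj Γ : E → MulAction.orbitRel.Quotient Γ E) := continuous_quot_mk

instance : CompactSpace SolMfd := by
  have hK : IsCompact (Set.Icc (-3 : ℝ) 3 ×ˢ (Set.Icc (-3 : ℝ) 3 ×ˢ Set.Icc (0 : ℝ) 1)) :=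
    isCompact_Icc.prod (isCompact_Icc.prod isCompact_Icc)
  have h := hK.image (continuous_proj (E := ℝ × ℝ × ℝ) (Γ := Lat))
  have h2 : (proj Lat : ℝ × ℝ × ℝ → SolMfd) ''
      (Set.Icc (-3 : ℝ) 3 ×ˢ (Set.Icc (-3 : ℝ) 3 ×ˢ Set.Icc (0 : ℝ) 1)) = univ := by
    rw [eq_univ_iff_forall]
    intro x
    obtain ⟨p, rfl⟩ := proj_surjective x
    obtain ⟨g, hg⟩ := exists_box p
    exact ⟨g • p, hg, proj_smul g p⟩
  rw [h2] at h
  exact isCompact_univ_iff.1 h

instance : ConnectedSpace SolMfd := by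
  have h : Function.Surjective (proj Lat : ℝ × ℝ × ℝ → SolMfd) := proj_surjective
  exact h.connectedSpace continuous_proj

noncomputable example : IsManifold 𝓘(ℝ, ℝ × ℝ × ℝ) ∞ SolMfd := inferInstance
noncomputable example : T2Space SolMfd := inferInstance

end Pool.Agent.N525.Sol
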