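import Mathlib
import Pool.Agent.Helper831.NilMetric
import Pool.Agent.N525.Sol.Grp

set_option maxSynthPendingDepth 3
set_option linter.unusedSectionVars false

open scoped Manifold ContDiff Topology
open Set Filter
open Pool.Agent.Helper831

namespace Pool.Agent.N525.Sol

abbrev E3 : Type := ℝ × ℝ × ℝ

/-- the left invariant Lorentzian metric `- e^{-2cz} dp² + 2 e^{cz} dq dz` on `Sol` -/
noncomputable def solForm (y : E3) : LinearMap.BilinForm ℝ E3 :=
  LinearMap.mk₂ ℝ (fun u w => -(Real.exp (-(2 * cc * y.2.2)) * (u.1 * w.1))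
      + Real.exp (cc * y.2.2) * (u.2.1 * w.2.2 + u.2.2 * w.2.1))
    (by intro a b c; simp; ring) (by intro r a b; simp; ring)
    (by intro a b c; simp; ring) (by intro r a b; simp; ring)

theorem solForm_apply (y u w : E3) :
    solForm y u w = -(Real.exp (-(2 * cc * y.2.2)) * (u.1 * w.1))
      + Real.exp (cc * y.2.2) * (u.2.1 * w.2.2 + u.2.2 * w.2.1) := rfl

theorem solForm_symm (y u w : E3) : solForm y u w = solForm y w u := by
  simp only [solForm_apply]; ring

theorem solForm_nondeg (y u : E3) (h : ∀ w, solForm y u w = 0) : u = 0 := by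
  have h1 := h (1, 0, 0)
  have h2 := h (0, 1, 0)
  have h3 := h (0, 0, 1)
  simp only [solForm_apply] at h1 h2 h3
  have e1 := (Real.exp_pos (-(2 * cc * y.2.2))).ne'
  have e2 := (Real.exp_pos (cc * y.2.2)).ne'
  simp [e1, e2] at h1 h2 h3
  exact Prod.ext h1 (Prod.ext h3 h2)

theorem Lat.fderiv_smul (g : Lat) (y u : E3) :
    fderiv ℝ (fun z : E3 => g • z) y u
      = (Real.exp (cc * (g : SolG).z) * u.1, Real.exp (-(cc * (g : SolG).z)) * u.2.1, u.2.2) := by
  set L : E3 →ₗ[ℝ] E3 :=
    { toFun := fun u =>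
        (Real.exp (cc * (g : SolG).z) * u.1, Real.exp (-(cc * (g : SolG).z)) * u.2.1, u.2.2)
      map_add' := by
        intro a b
        refine Prod.ext ?_ (Prod.ext ?_ ?_) <;> simp <;> ring
      map_smul' := by
        intro r a
        refine Prod.ext ?_ (Prod.ext ?_ ?_) <;> simp <;> ring } with hL
  set Lc : E3 →L[ℝ] E3 := LinearMap.toContinuousLinearMap L with hLc
  have h : (fun z : E3 => g • z) = fun z => Lc z +
      ((g : SolG).p, (g : SolG).q, (g : SolG).z) := by
    ext1 z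
    rw [Lat.smul_def]
    refine Prod.ext ?_ (Prod.ext ?_ ?_)
    · show _ = Real.exp (cc * (g : SolG).z) * z.1 + (g : SolG).p
      ring
    · show _ = Real.exp (-(cc * (g : SolG).z)) * z.2.1 + (g : SolG).q
      ring
    · show _ = z.2.2 + (g : SolG).z
      ring
  rw [h]
  have h2 : HasFDerivAt (fun z => Lc z +
      (((g : SolG).p, (g : SolG).q, (g : SolG).z) : E3)) Lc y :=
    Lc.hasFDerivAt.add_const _
  rw [h2.fderiv]
  rfl

/-- The Lorentzian metric on the closed manifold `SolMfd`. -/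
noncomputable def solMetric : SemiRiemannianMetric E3 SolMfd :=
  quotMetric (Γ := Lat) solForm solForm_symm solForm_nondeg
    (fun u w => by
      simp only [solForm_apply]
      fun_prop)
    (by
      intro g y u w
      rw [Lat.fderiv_smul, Lat.fderiv_smul, Lat.smul_def]
      simp only [solForm_apply]
      have h1 : Real.exp (-(2 * cc * ((g : SolG).z + y.2.2))) * (Real.exp (cc * (g : SolG).z)
          * Real.exp (cc * (g : SolG).z)) = Real.exp (-(2 * cc * y.2.2)) := by
        rw [← Real.exp_add, ← Real.exp_add]; congr 1; ring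
      have h2 : Real.exp (cc * ((g : SolG).z + y.2.2)) * Real.exp (-(cc * (g : SolG).z))
          = Real.exp (cc * y.2.2) := by
        rw [← Real.exp_add]; congr 1; ring
      rw [← h1, ← h2]
      ring)

theorem solMetric_coeff {e : OpenPartialHomeomorph SolMfd E3}
    (he : e ∈ atlas E3 SolMfd) (y u w : E3) :
    solMetric.coeff e y u w = solForm y u w :=
  quotMetric_coeff _ _ _ _ _ he y u w

/-- the form `e^{-cz} dp` -/
noncomputable def xForm (y : E3) : E3 →ₗ[ℝ] ℝ where
  toFun u := Real.exp (-(cc * y.2.2)) * u.1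
  map_add' a b := by simp; ring
  map_smul' r a := by simp; ring

/-- the form `e^{cz} dq` -/
noncomputable def yForm (y : E3) : E3 →ₗ[ℝ] ℝ where
  toFun u := Real.exp (cc * y.2.2) * u.2.1
  map_add' a b := by simp; ring
  map_smul' r a := by simp; ring

/-- the form `dz` -/
noncomputable def zForm : E3 →ₗ[ℝ] ℝ where
  toFun u := u.2.2
  map_add' _ _ := rfl
  map_smul' _ _ := rfl

noncomputable def solX : OneForm E3 SolMfd :=
  quotForm (Γ := Lat) xForm (by intro u; show ContDiff ℝ ∞ fun y : E3 => Real.exp _ * _; fun_prop)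
    (by
      intro g y u
      rw [Lat.fderiv_smul, Lat.smul_def]
      show Real.exp (-(cc * ((g : SolG).z + y.2.2))) * (Real.exp (cc * (g : SolG).z) * u.1)
        = Real.exp (-(cc * y.2.2)) * u.1
      rw [← mul_assoc, ← Real.exp_add]
      congr 2; ring)

noncomputable def solY : OneForm E3 SolMfd :=
  quotForm (Γ := Lat) yForm (by intro u; show ContDiff ℝ ∞ fun y : E3 => Real.exp _ * _; fun_prop)
    (by
      intro g y u
      rw [Lat.fderiv_smul, Lat.smul_def]
      show Real.exp (cc * ((g : SolG).z + y.2.2)) * (Real.exp (-(cc * (g : SolG).z)) * u.2.1)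
        = Real.exp (cc * y.2.2) * u.2.1
      rw [← mul_assoc, ← Real.exp_add]
      congr 2; ring)

noncomputable def solZ : OneForm E3 SolMfd :=
  quotForm (Γ := Lat) (fun _ => zForm) (fun _ => contDiff_const)
    (by
      intro g y u
      rw [Lat.fderiv_smul]
      rfl)

/-- the value of a form on the velocity, in a chart -/
theorem solX_eval {e : OpenPartialHomeomorph SolMfd E3} (he : e ∈ atlas E3 SolMfd)
    {γ : ℝ → SolMfd} {t : ℝ} (hγ : MDifferentiableAt 𝓘(ℝ, ℝ) 𝓘(ℝ, E3) γ t)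
    (ht : γ t ∈ e.source) : solX.form (γ t) (velocity E3 γ t)
      = Real.exp (-(cc * (e (γ t)).2.2)) * (deriv (fun r => e (γ r)) t).1 := by
  rw [eval_velocity' solX he hγ ht]
  exact quotForm_coeff _ _ _ he _ _

theorem solY_eval {e : OpenPartialHomeomorph SolMfd E3} (he : e ∈ atlas E3 SolMfd)
    {γ : ℝ → SolMfd} {t : ℝ} (hγ : MDifferentiableAt 𝓘(ℝ, ℝ) 𝓘(ℝ, E3) γ t)
    (ht : γ t ∈ e.source) : solY.form (γ t) (velocity E3 γ t)
      = Real.exp (cc * (e (γ t)).2.2) * (deriv (fun r => e (γ r)) t).2.1 := by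
  rw [eval_velocity' solY he hγ ht]
  exact quotForm_coeff _ _ _ he _ _

theorem solZ_eval {e : OpenPartialHomeomorph SolMfd E3} (he : e ∈ atlas E3 SolMfd)
    {γ : ℝ → SolMfd} {t : ℝ} (hγ : MDifferentiableAt 𝓘(ℝ, ℝ) 𝓘(ℝ, E3) γ t)
    (ht : γ t ∈ e.source) : solZ.form (γ t) (velocity E3 γ t)
      = (deriv (fun r => e (γ r)) t).2.2 := by
  rw [eval_velocity' solZ he hγ ht]
  exact quotForm_coeff _ _ _ he _ _

theorem eventually_source {γ : ℝ → SolMfd} (hγ : ContMDiff 𝓘(ℝ, ℝ) 𝓘(ℝ, E3) ∞ γ)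
    {e : OpenPartialHomeomorph SolMfd E3} {t : ℝ} (ht : γ t ∈ e.source) :
    ∀ᶠ r in 𝓝 t, γ r ∈ e.source :=
  ((hγ t).continuousAt).eventually_mem (e.open_source.mem_nhds ht)

/-- the equations of the geodesics in a frame -/
theorem frame_ode {γ : ℝ → SolMfd} (hγ : solMetric.IsGeodesic γ) (t : ℝ) :
    HasDerivAt (fun s => solX.form (γ s) (velocity E3 γ s))
      (cc * solZ.form (γ t) (velocity E3 γ t) * solX.form (γ t) (velocity E3 γ t)) t ∧
    HasDerivAt (fun s => solY.form (γ s) (velocity E3 γ s))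
      (cc * (solX.form (γ t) (velocity E3 γ t) ^ 2
        + solY.form (γ t) (velocity E3 γ t) * solZ.form (γ t) (velocity E3 γ t))) t ∧
    HasDerivAt (fun s => solZ.form (γ s) (velocity E3 γ s))
      (-(cc * solZ.form (γ t) (velocity E3 γ t) ^ 2)) t := by
  obtain ⟨e, he, ht⟩ : ∃ e ∈ atlas E3 SolMfd, γ t ∈ e.source :=
    ⟨_, chart_mem_atlas E3 (γ t), mem_chart_source E3 (γ t)⟩
  have hev := eventually_source hγ.1 ht
  have hmd : ∀ r, MDifferentiableAt 𝓘(ℝ, ℝ) 𝓘(ℝ, E3) γ r := fun r =>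
    (hγ.1 r).mdifferentiableAt (by simp)
  set c : ℝ → E3 := fun r => e (γ r) with hc
  have hcd : HasDerivAt c (deriv c t) t :=
    ((contDiffAt_coord he hγ.1 ht).differentiableAt (by simp)).hasDerivAt
  have hz : HasDerivAt (fun r => (c r).2.2) (deriv c t).2.2 t := hasDerivAt_snd' (hasDerivAt_snd' hcd)
  have h1 := hγ.2 e he t ht (1, 0, 0)
  have h2 := hγ.2 e he t ht (0, 1, 0)
  have h3 := hγ.2 e he t ht (0, 0, 1)
  simp only [solMetric_coeff he, solForm_apply] at h1 h2 h3
  -- the derivative of the coefficients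
  set v : E3 := deriv c t with hv
  have hF : ∀ y : E3, HasFDerivAt (fun y : E3 => -(Real.exp (-(2 * cc * y.2.2)) * (v.1 * v.1))
      + Real.exp (cc * y.2.2) * (v.2.1 * v.2.2 + v.2.2 * v.2.1))
      ((2 * cc * Real.exp (-(2 * cc * y.2.2)) * (v.1 * v.1)
        + cc * Real.exp (cc * y.2.2) * (v.2.1 * v.2.2 + v.2.2 * v.2.1)) •
        ((ContinuousLinearMap.snd ℝ ℝ ℝ).comp (ContinuousLinearMap.snd ℝ ℝ (ℝ × ℝ)))) y := by
    intro y
    have hp : HasFDerivAt (fun y : E3 => y.2.2)
        ((ContinuousLinearMap.snd ℝ ℝ ℝ).comp (ContinuousLinearMap.snd ℝ ℝ (ℝ × ℝ))) y :=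
      ((ContinuousLinearMap.snd ℝ ℝ ℝ).comp (ContinuousLinearMap.snd ℝ ℝ (ℝ × ℝ))).hasFDerivAt
    have hg : HasDerivAt (fun z : ℝ => -(Real.exp (-(2 * cc * z)) * (v.1 * v.1))
      + Real.exp (cc * z) * (v.2.1 * v.2.2 + v.2.2 * v.2.1))
      (2 * cc * Real.exp (-(2 * cc * y.2.2)) * (v.1 * v.1)
        + cc * Real.exp (cc * y.2.2) * (v.2.1 * v.2.2 + v.2.2 * v.2.1)) y.2.2 := by
      have ha : HasDerivAt (fun z : ℝ => Real.exp (-(2 * cc * z)))
          (Real.exp (-(2 * cc * y.2.2)) * (-(2 * cc * 1))) y.2.2 :=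
        (((hasDerivAt_id y.2.2).const_mul (2 * cc)).neg).exp
      have hb : HasDerivAt (fun z : ℝ => Real.exp (cc * z))
          (Real.exp (cc * y.2.2) * (cc * 1)) y.2.2 :=
        ((hasDerivAt_id y.2.2).const_mul cc).exp
      refine (((ha.mul_const (v.1 * v.1)).neg).add
        (hb.mul_const (v.2.1 * v.2.2 + v.2.2 * v.2.1))).congr_deriv ?_
      ring
    exact hg.comp_hasFDerivAt y hp
  rw [(hF _).fderiv] at h1 h2 h3
  simp only [ContinuousLinearMap.smul_apply, ContinuousLinearMap.comp_apply,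
    ContinuousLinearMap.coe_snd', smul_eq_mul, mul_zero, mul_one, zero_add,
    add_zero, neg_zero] at h1 h2 h3
  -- derivatives of the exponentials along the curve
  have hexp : ∀ k : ℝ, HasDerivAt (fun s => Real.exp (k * (c s).2.2))
      (Real.exp (k * (c t).2.2) * (k * v.2.2)) t := fun k => (hz.const_mul k).exp
  have hXt := solX_eval he (hmd t) ht
  have hYt := solY_eval he (hmd t) ht
  have hZt := solZ_eval he (hmd t) ht
  refine ⟨?_, ?_, ?_⟩
  · have h4 : HasDerivAt (fun s => -(Real.exp (cc * (c s).2.2) *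
        -(Real.exp (-(2 * cc * (c s).2.2)) * (deriv c s).1))) _ t := ((hexp cc).mul h1).neg
    have h5 : (fun s => solX.form (γ s) (velocity E3 γ s)) =ᶠ[𝓝 t] fun s =>
        -(Real.exp (cc * (c s).2.2) * -(Real.exp (-(2 * cc * (c s).2.2)) * (deriv c s).1)) := by
      filter_upwards [hev] with s hs
      rw [solX_eval he (hmd s) hs]
      have : Real.exp (-(cc * (c s).2.2)) = Real.exp (cc * (c s).2.2)
          * Real.exp (-(2 * cc * (c s).2.2)) := by
        rw [← Real.exp_add]; congr 1; ring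
      show Real.exp (-(cc * (c s).2.2)) * _ = _
      rw [this]; ring
    refine (h4.congr_of_eventuallyEq h5).congr_deriv ?_
    rw [hXt, hZt]
    have : Real.exp (-(cc * (c t).2.2)) = Real.exp (cc * (c t).2.2)
        * Real.exp (-(2 * cc * (c t).2.2)) := by
      rw [← Real.exp_add]; congr 1; ring
    show _ = cc * v.2.2 * (Real.exp (-(cc * (c t).2.2)) * v.1)
    rw [this]
    ring
  · have h5 : (fun s => solY.form (γ s) (velocity E3 γ s)) =ᶠ[𝓝 t] fun s =>
        Real.exp (cc * (c s).2.2) * (deriv c s).2.1 := by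
      filter_upwards [hev] with s hs
      rw [solY_eval he (hmd s) hs]
    refine (h3.congr_of_eventuallyEq h5).congr_deriv ?_
    rw [hXt, hYt, hZt]
    have : Real.exp (-(cc * (c t).2.2)) ^ 2 = Real.exp (-(2 * cc * (c t).2.2)) := by
      rw [← Real.exp_nat_mul]; congr 1; push_cast; ring
    show _ = cc * ((Real.exp (-(cc * (c t).2.2)) * v.1) ^ 2 + _ * _)
    rw [mul_pow, this]
    ring
  · have h4 : HasDerivAt (fun s => Real.exp (-cc * (c s).2.2) *
        (Real.exp (cc * (c s).2.2) * (deriv c s).2.2)) _ t := (hexp (-cc)).mul h2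
    have h5 : (fun s => solZ.form (γ s) (velocity E3 γ s)) =ᶠ[𝓝 t] fun s =>
        Real.exp (-cc * (c s).2.2) * (Real.exp (cc * (c s).2.2) * (deriv c s).2.2) := by
      filter_upwards [hev] with s hs
      rw [solZ_eval he (hmd s) hs]
      rw [← mul_assoc, ← Real.exp_add]
      simp
      rfl
    refine (h4.congr_of_eventuallyEq h5).congr_deriv ?_
    rw [hZt]
    have : Real.exp (-cc * (c t).2.2) * Real.exp (cc * (c t).2.2) = 1 := by
      rw [← Real.exp_add]; simp
    show _ = -(cc * v.2.2 ^ 2)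
    linear_combination (-cc * v.2.2 ^ 2) * this

end Pool.Agent.N525.Sol
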