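import Mathlib
import Pool.Agent.N525.Sol.Geo

set_option maxSynthPendingDepth 3
set_option linter.unusedSectionVars false

open scoped Manifold ContDiff Topology
open Set Filter
open Pool.Agent.Helper831

namespace Pool.Agent.N525.Sol

/-- a periodic function with nonpositive derivative has zero derivative -/
theorem periodic_deriv_zero {f f' : ℝ → ℝ} {L : ℝ} (hL : 0 < L) (hf : ∀ t, HasDerivAt f (f' t) t)
    (h0 : ∀ t, f' t ≤ 0) (hper : ∀ t, f (t + L) = f t) (t : ℝ) : f' t = 0 := by
  have hanti : Antitone f := antitone_of_hasDerivAt_nonpos hf h0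
  have hP : Function.Periodic f L := hper
  have hconst : ∀ s, f s = f t := by
    have key : ∀ a b : ℝ, a ≤ b → f a = f b := by
      intro a b hab
      obtain ⟨n, hn⟩ := exists_nat_ge ((b - a) / L)
      have h1 : b ≤ a + n * L := by
        rw [div_le_iff₀ hL] at hn
        linarith
      have h2 : f (a + n * L) = f a := by
        have := hP.nat_mul n a
        simpa using this
      exact le_antisymm (h2 ▸ hanti h1) (hanti hab)
    intro s
    rcases le_total s t with h | h
    · exact key s t h
    · exact (key t s h).symm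
  have h1 : HasDerivAt f 0 t := by
    have h2 : f = fun _ => f t := funext hconst
    rw [h2]
    exact hasDerivAt_const _ _
  exact (hf t).unique h1

theorem form_periodic (η : OneForm E3 SolMfd) {γ : ℝ → SolMfd}
    (hγ : ContMDiff 𝓘(ℝ, ℝ) 𝓘(ℝ, E3) ∞ γ) {L : ℝ} (hper : ∀ t, γ (t + L) = γ t) (t : ℝ) :
    η.form (γ (t + L)) (velocity E3 γ (t + L)) = η.form (γ t) (velocity E3 γ t) := by
  obtain ⟨e, he, ht⟩ : ∃ e ∈ atlas E3 SolMfd, γ t ∈ e.source :=
    ⟨_, chart_mem_atlas E3 (γ t), mem_chart_source E3 (γ t)⟩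
  have ht' : γ (t + L) ∈ e.source := by rw [hper]; exact ht
  rw [eval_velocity' η he ((hγ t).mdifferentiableAt (by simp)) ht,
    eval_velocity' η he ((hγ (t + L)).mdifferentiableAt (by simp)) ht', hper]
  congr 2
  have h1 : (fun r => e (γ r)) = fun r => e (γ (r + L)) := by
    funext r; rw [hper]
  conv_rhs => rw [h1]
  rw [deriv_comp_add_const (f := fun r => e (γ r))]

/-- every periodic geodesic of `solMetric` is constant -/
theorem periodic_const {γ : ℝ → SolMfd} (hγ : solMetric.IsGeodesic γ) {L : ℝ} (hL : 0 < L)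
    (hper : ∀ t, γ (t + L) = γ t) (s t : ℝ) : γ s = γ t := by
  have hc := cc_pos
  have hode := frame_ode hγ
  have hpX := form_periodic solX hγ.1 hper
  have hpY := form_periodic solY hγ.1 hper
  have hpZ := form_periodic solZ hγ.1 hper
  have hmd : ∀ r, MDifferentiableAt 𝓘(ℝ, ℝ) 𝓘(ℝ, E3) γ r := fun r =>
    (hγ.1 r).mdifferentiableAt (by simp)
  -- the component along `dz` vanishes
  have hZ : ∀ t, solZ.form (γ t) (velocity E3 γ t) = 0 := by
    intro t
    have h := periodic_deriv_zero hL (fun t => (hode t).2.2)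
      (fun t => by have := sq_nonneg (solZ.form (γ t) (velocity E3 γ t)); nlinarith) hpZ t
    have h2 : solZ.form (γ t) (velocity E3 γ t) ^ 2 = 0 := by
      have : cc * solZ.form (γ t) (velocity E3 γ t) ^ 2 = 0 := by linarith
      exact (mul_eq_zero.1 this).resolve_left hc.ne'
    exact pow_eq_zero_iff (two_ne_zero) |>.1 h2
  -- the component along `dp` vanishes
  have hY1 : ∀ t, HasDerivAt (fun s => solY.form (γ s) (velocity E3 γ s))
      (cc * solX.form (γ t) (velocity E3 γ t) ^ 2) t := by
    intro t
    have := (hode t).2.1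
    rw [hZ t, mul_zero, add_zero] at this
    exact this
  have hX : ∀ t, solX.form (γ t) (velocity E3 γ t) = 0 := by
    intro t
    have h := periodic_deriv_zero (f := fun s => -solY.form (γ s) (velocity E3 γ s)) hL
      (fun t => (hY1 t).neg)
      (fun t => by have := sq_nonneg (solX.form (γ t) (velocity E3 γ t)); nlinarith)
      (fun t => by rw [hpY]) t
    have h2 : solX.form (γ t) (velocity E3 γ t) ^ 2 = 0 := by
      have : cc * solX.form (γ t) (velocity E3 γ t) ^ 2 = 0 := by linarith
      exact (mul_eq_zero.1 this).resolve_left hc.ne'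
    exact pow_eq_zero_iff (two_ne_zero) |>.1 h2
  -- the component along `dq` is constant
  obtain ⟨Y₀, hY⟩ : ∃ Y₀ : ℝ, ∀ t, solY.form (γ t) (velocity E3 γ t) = Y₀ := by
    refine ⟨solY.form (γ 0) (velocity E3 γ 0), fun t => ?_⟩
    have h1 : ∀ t, HasDerivAt (fun s => solY.form (γ s) (velocity E3 γ s)) 0 t := by
      intro t
      have := hY1 t
      rw [hX t] at this
      simpa using this
    exact is_const_of_deriv_eq_zero (fun t => (h1 t).differentiableAt)
      (fun t => (h1 t).deriv) t 0
  -- the lift
  obtain ⟨x₀, hx₀⟩ := proj_surjective (Γ := Lat) (γ 0)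
  set w : ℝ := Real.exp (-(cc * x₀.2.2)) * Y₀ with hw
  set σ : ℝ → E3 := fun t => (x₀.1, x₀.2.1 + t * w, x₀.2.2) with hσ
  have hσc : Continuous σ := by fun_prop
  have hγc : Continuous γ := hγ.1.continuous
  have hlift : ∀ t, γ t = proj Lat (σ t) := by
    set S : Set ℝ := {t | γ t = proj Lat (σ t)} with hS
    have hclosed : IsClosed S := isClosed_eq hγc (continuous_proj.comp hσc)
    have hopen : IsOpen S := by
      rw [isOpen_iff_mem_nhds]
      intro t₀ ht₀
      obtain ⟨e, he, ht⟩ : ∃ e ∈ atlas E3 SolMfd, γ t₀ ∈ e.source :=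
        ⟨_, chart_mem_atlas E3 (γ t₀), mem_chart_source E3 (γ t₀)⟩
      obtain ⟨ε, hε, hball⟩ := Metric.eventually_nhds_iff_ball.1 (eventually_source hγ.1 ht)
      set c : ℝ → E3 := fun r => e (γ r) with hcdef
      have hcd : ∀ r ∈ Metric.ball t₀ ε, HasDerivAt c (deriv c r) r := fun r hr =>
        ((contDiffAt_coord he hγ.1 (hball r hr)).differentiableAt (by simp)).hasDerivAt
      have hv : ∀ r ∈ Metric.ball t₀ ε,
          deriv c r = (0, Real.exp (-(cc * (c r).2.2)) * Y₀, 0) := by
        intro r hr
        have h1 := solX_eval he (hmd r) (hball r hr)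
        have h2 := solY_eval he (hmd r) (hball r hr)
        have h3 := solZ_eval he (hmd r) (hball r hr)
        rw [hX] at h1
        rw [hY] at h2
        rw [hZ] at h3
        have h4 : (deriv c r).1 = 0 := by
          have := (zero_eq_mul.1 h1).resolve_left (Real.exp_pos _).ne'
          exact this
        have h5 : (deriv c r).2.1 = Real.exp (-(cc * (c r).2.2)) * Y₀ := by
          rw [h2]
          show _ = Real.exp (-(cc * (c r).2.2)) *
            (Real.exp (cc * (c r).2.2) * (deriv c r).2.1)
          rw [← mul_assoc, ← Real.exp_add, neg_add_cancel, Real.exp_zero, one_mul]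
        exact Prod.ext h4 (Prod.ext h5 h3.symm)
      have hpre : IsPreconnected (Metric.ball t₀ ε) := (convex_ball t₀ ε).isPreconnected
      have hmem : t₀ ∈ Metric.ball t₀ ε := Metric.mem_ball_self hε
      have hz : ∀ r ∈ Metric.ball t₀ ε, (c r).2.2 = (c t₀).2.2 := by
        have hz' : ∀ r ∈ Metric.ball t₀ ε, HasDerivAt (fun r => (c r).2.2) 0 r := by
          intro r hr
          have := hasDerivAt_snd' (hasDerivAt_snd' (hcd r hr))
          rw [hv r hr] at this
          exact this
        have := Metric.isOpen_ball.eqOn_of_deriv_eq (f := fun r => (c r).2.2)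
          (g := fun _ => (c t₀).2.2) hpre
          (fun r hr => (hz' r hr).differentiableAt.differentiableWithinAt)
          (differentiableOn_const _)
          (fun r hr => by simp [(hz' r hr).deriv]) hmem rfl
        exact fun r hr => this hr
      set D : E3 := (0, Real.exp (-(cc * (c t₀).2.2)) * Y₀, 0) with hD
      have hcr : ∀ r ∈ Metric.ball t₀ ε, c r = c t₀ + (r - t₀) • D := by
        have hd2 : ∀ r : ℝ, HasDerivAt (fun r : ℝ => c t₀ + (r - t₀) • D) D r := by
          intro r
          simpa using (((hasDerivAt_id r).sub_const t₀).smul_const D).const_add (c t₀)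
        have := Metric.isOpen_ball.eqOn_of_deriv_eq (f := c)
          (g := fun r : ℝ => c t₀ + (r - t₀) • D) hpre
          (fun r hr => (hcd r hr).differentiableAt.differentiableWithinAt)
          (fun r hr => (hd2 r).differentiableAt.differentiableWithinAt)
          (fun r hr => by
            show deriv c r = _
            rw [(hd2 r).deriv, hv r hr, hz r hr]) hmem (by simp)
        exact fun r hr => this hr
      have h0 : proj Lat (c t₀) = proj Lat (σ t₀) := by
        rw [← ht₀]
        exact proj_chart he ht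
      obtain ⟨δ, hδ⟩ := exists_of_proj_eq h0
      filter_upwards [Metric.ball_mem_nhds t₀ hε] with r hr
      show γ r = proj Lat (σ r)
      have h1 : γ r = proj Lat (c r) := (proj_chart he (hball r hr)).symm
      rw [h1, hcr r hr, ← proj_smul δ (σ r)]
      congr 1
      rw [hδ, hD, hδ, Lat.smul_def, Lat.smul_def]
      simp only [hσ]
      refine Prod.ext ?_ (Prod.ext ?_ ?_)
      · simp
      · simp only [Prod.fst_add, Prod.snd_add, Prod.smul_fst, Prod.smul_snd, smul_eq_mul]
        rw [mul_add cc, neg_add, Real.exp_add, hw]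
        ring
      · simp
    have huniv : S = univ := IsClopen.eq_univ ⟨hclosed, hopen⟩ ⟨0, by
      show γ 0 = proj Lat (σ 0)
      rw [← hx₀]
      congr 1
      simp [hσ]⟩
    intro t
    have : t ∈ S := huniv ▸ mem_univ t
    exact this
  -- the period
  have h1 : proj Lat (σ (0 + L)) = proj Lat (σ 0) := by
    rw [← hlift, ← hlift, hper]
  obtain ⟨⟨δ, a, b, k, rfl⟩, hδ⟩ := exists_of_proj_eq h1
  rw [Lat.smul_def] at hδ
  simp only [hσ, Prod.mk.injEq] at hδ
  obtain ⟨h2, h3, h4⟩ := hδ
  have hk : (k : ℝ) = 0 := by linarith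
  rw [hk] at h2 h3
  simp only [mul_zero, Real.exp_zero, one_mul, neg_zero, zero_mul, add_zero, zero_add] at h2 h3
  have hab : (a : ℝ) + b * phi = 0 := by linarith
  have hb : b = 0 := by
    by_contra hb
    have hb' : (b : ℝ) ≠ 0 := by exact_mod_cast hb
    have h5 : phi = ((-a / b : ℚ) : ℝ) := by
      push_cast
      rw [eq_div_iff hb']
      linarith
    exact (Real.goldenRatio_irrational).ne_rat _ h5
  rw [hb] at hab h3
  have ha : (a : ℝ) = 0 := by simpa using hab
  rw [ha] at h3
  have hw0 : w = 0 := by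
    have h6 : L * w = 0 := by
      simp at h3
      rcases h3 with h3 | h3
      · rw [h3]; simp
      · rw [h3]; simp
    exact (mul_eq_zero.1 h6).resolve_left hL.ne'
  rw [hlift s, hlift t]
  simp only [hσ, hw0, mul_zero]

theorem solMetric_lorentzian (x : SolMfd) :
    ∃ v : TangentSpace 𝓘(ℝ, E3) x, 0 < solMetric.form x v v ∧
      ∀ w : TangentSpace 𝓘(ℝ, E3) x, solMetric.form x v w = 0 → w ≠ 0 →
        solMetric.form x w w < 0 := by
  refine ⟨((0, 1, 1) : E3), ?_, ?_⟩
  · show (0 : ℝ) < solForm (chartAt E3 x x) (0, 1, 1) (0, 1, 1)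
    rw [solForm_apply]
    have := Real.exp_pos (cc * (chartAt E3 x x).2.2)
    simpa using this
  · intro w hw hne
    obtain ⟨u, hu⟩ : ∃ u : E3, u = w := ⟨w, rfl⟩
    have hw' : solForm (chartAt E3 x x) (0, 1, 1) u = 0 := by rw [hu]; exact hw
    have hne' : u ≠ 0 := by rw [hu]; exact hne
    have goal : solForm (chartAt E3 x x) u u < 0 := by
      rw [solForm_apply] at hw' ⊢
      have e1 := Real.exp_pos (-(2 * cc * (chartAt E3 x x).2.2))
      have e2 := Real.exp_pos (cc * (chartAt E3 x x).2.2)
      have h1 : u.2.2 + u.2.1 = 0 := by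
        simp only [zero_mul, mul_zero, neg_zero, zero_add, one_mul] at hw'
        exact (mul_eq_zero.1 hw').resolve_left e2.ne'
      have h2 : u.2.2 = -u.2.1 := by linarith
      rw [h2]
      have h3 : 0 < u.1 ^ 2 + u.2.1 ^ 2 := by
        by_contra h
        have h4 : u.1 ^ 2 + u.2.1 ^ 2 ≤ 0 := not_lt.1 h
        have h5 : u.1 = 0 := by nlinarith [sq_nonneg u.1, sq_nonneg u.2.1]
        have h6 : u.2.1 = 0 := by nlinarith [sq_nonneg u.1, sq_nonneg u.2.1]
        apply hne'
        exact Prod.ext h5 (Prod.ext h6 (by rw [h2, h6]; simp))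
      rcases (sq_nonneg u.1).lt_or_eq with h4 | h4
      · have := mul_pos e1 h4
        nlinarith [mul_nonneg e2.le (sq_nonneg u.2.1)]
      · have h5 : 0 < u.2.1 ^ 2 := by linarith
        have := mul_pos e2 h5
        nlinarith [mul_nonneg e1.le (sq_nonneg u.1)]
    rw [hu] at goal
    exact goal

end Pool.Agent.N525.Sol
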